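import Pool.Agent.H88.Baire3

set_option autoImplicit false

namespace Pool.Agent.Results.MP_2e37b9_an.Baire

open Pool.Agent.H88.Baire

theorem result (G : Set ℂ) (hopen : IsOpen G) (hconn : IsConnected G)
    (hreg : interior (closure G) = G) :
    HasBaireDenseSubspace (AInf G) fun F => NonExt G (ext0 (F.1 0)) :=
  valdivia hopen hconn hreg

end Pool.Agent.Results.MP_2e37b9_an.Baire
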